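import Mathlib
import Pool.Agent.H97.Toep5

set_option autoImplicit false

namespace Pool.Agent.Results.MP_3f635c_an.NotAlgebra

open Complex Metric

variable {X : Type} [NormedAddCommGroup X] [NormedSpace ℂ X]

/-- The element `x` of `X` is the polynomial `p` as a function on the unit disc. -/
def IsPoly (ι : X →ₗ[ℂ] (ℂ → ℂ)) (x : X) (p : Polynomial ℂ) : Prop :=
  ∀ z ∈ ball (0 : ℂ) 1, ι x z = p.eval z

/-- `X` is, through `ι`, a space of analytic functions in the disc with conditions 1-3. -/
structure Admissible (ι : X →ₗ[ℂ] (ℂ → ℂ)) : Prop where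
  inj : ∀ x, (∀ z ∈ ball (0 : ℂ) 1, ι x z = 0) → x = 0
  holo : ∀ x, DifferentiableOn ℂ (ι x) (ball 0 1)
  eval_cont : ∀ z ∈ ball (0 : ℂ) 1, Continuous fun x => ι x z
  rot : ∀ (x : X) (t : ℝ), ∃ y, ∀ z ∈ ball (0 : ℂ) 1, ι y z = ι x (exp (t * I) * z)
  poly_mem : ∀ p, ∃ x, IsPoly ι x p
  poly_dense : Dense {x | ∃ p, IsPoly ι x p}
  shifts : ∃ S B : X →L[ℂ] X,
    (∀ x, ∀ z ∈ ball (0 : ℂ) 1, ι (S x) z = z * ι x z ∧ z * ι (B x) z = ι x z - ι x 0) ∧
    spectralRadius ℂ S = 1 ∧ spectralRadius ℂ B = 1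

/-- `p ↦ P₊(f p)` on polynomials extends to a bounded operator on `X`. -/
def InST (ι : X →ₗ[ℂ] (ℂ → ℂ)) (f : AddCircle (1 : ℝ) → ℂ) : Prop :=
  ∃ T : X →L[ℂ] X, ∀ x p, IsPoly ι x p → ∀ z ∈ ball (0 : ℂ) 1,
    HasSum (fun n : ℕ => fourierCoeff (fun θ => f θ * p.eval (fourier 1 θ)) n * z ^ n) (ι (T x) z)

open Pool.Agent.H97.Toep Finset Filter Topology

theorem result : ∃ (X : Type) (_ : NormedAddCommGroup X) (_ : NormedSpace ℂ X)
    (_ : CompleteSpace X) (ι : X →ₗ[ℂ] (ℂ → ℂ)), Admissible ι ∧
    ∃ f g : C(AddCircle (1 : ℝ), ℂ), InST ι f ∧ InST ι g ∧ ¬ InST ι (f * g) := by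
  classical
  obtain ⟨S, hS1, hS⟩ := exists_seq
  have hl := fun s => (hS1 s).2
  obtain ⟨X, _, _, _, co, hn, hneg, hsur, hden⟩ := exists_space (S := S) hl
  have gb : ∀ x, GB S (co x) ‖x‖ := fun x => (hn x _).1 le_rfl
  have cinj : ∀ x y, co x = co y → x = y := fun x y h => by
    rw [← sub_eq_zero, ← norm_le_zero_iff, hn, map_sub, h, sub_self]; exact GB_zero
  have cext : ∀ x y, (∀ n : ℕ, co x n = co y n) → x = y := fun x y h => cinj x y (by
    ext n
    by_cases hn0 : n < 0
    · rw [hneg x n hn0, hneg y n hn0]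
    · lift n to ℕ using not_lt.1 hn0; exact h n)
  have ps : ∀ x (R : Finset ℕ), ∑ n ∈ R, ‖co x n‖ ≤ ‖x‖ := fun x R => by
    have := (gb x).1 (R.image Nat.cast)
    rwa [sum_image Nat.cast_injective.injOn] at this
  have sm : ∀ x, Summable fun n : ℕ => ‖co x n‖ := fun x =>
    summable_of_sum_le (fun _ => norm_nonneg _) (ps x)
  have bd : ∀ x, ∀ z ∈ ball (0:ℂ) 1, ∀ n : ℕ, ‖co x n * z ^ n‖ ≤ ‖co x n‖ := fun x z hz n => by
    rw [norm_mul, norm_pow]
    exact mul_le_of_le_one_right (norm_nonneg _)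
      (pow_le_one₀ (norm_nonneg _) (mem_ball_zero_iff.1 hz).le)
  have sz : ∀ x, ∀ z ∈ ball (0:ℂ) 1, Summable fun n : ℕ => co x n * z ^ n := fun x z hz =>
    .of_norm_bounded (sm x) (bd x z hz)
  let ι : X →ₗ[ℂ] (ℂ → ℂ) :=
    { toFun := fun x z => if z ∈ ball (0:ℂ) 1 then ∑' n : ℕ, co x n * z ^ n else 0
      map_add' := fun x y => by
        ext z; simp only [Pi.add_apply]; split_ifs with hz
        · rw [← (sz x z hz).tsum_add (sz y z hz)]; simp [add_mul]
        · simp
      map_smul' := fun c x => by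
        ext z; simp only [Pi.smul_apply, RingHom.id_apply, smul_eq_mul]; split_ifs with hz
        · rw [← tsum_mul_left]; simp [mul_assoc]
        · simp }
  have hs : ∀ x, ∀ z ∈ ball (0:ℂ) 1, HasSum (fun n : ℕ => co x n * z ^ n) (ι x z) := fun x z hz => by
    simp only [ι, LinearMap.coe_mk, AddHom.coe_mk, if_pos hz]; exact (sz x z hz).hasSum
  have det : ∀ x (c : ℕ → ℂ), (∀ z ∈ ball (0:ℂ) 1, HasSum (fun n => c n * z ^ n) (ι x z)) →
      ∀ n : ℕ, co x n = c n := fun x c h n => by
    have := coeff_uniq (c := fun n : ℕ => co x n - c n) fun z hz => by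
      simpa [sub_mul] using (hs x z hz).sub (h z hz)
    exact sub_eq_zero.1 (congrFun this n)
  have hp : ∀ (p : Polynomial ℂ) (z : ℂ), HasSum (fun n => p.coeff n * z ^ n) (p.eval z) := fun p z => by
    rw [Polynomial.eval_eq_sum_range]
    exact hasSum_sum_of_ne_finset_zero fun n hn => by
      rw [Polynomial.coeff_eq_zero_of_natDegree_lt (by simpa using hn), zero_mul]
  have isp : ∀ x p, IsPoly ι x p ↔ ∀ n : ℕ, co x n = p.coeff n := fun x p =>
    ⟨fun h => det x _ fun z hz => h z hz ▸ hp p z, fun h z hz =>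
      (hs x z hz).unique (by simpa only [h] using hp p z)⟩
  have ext : ∀ (A : Fn →ₗ[ℂ] Fn) (K : ℝ), Continuous A → (∀ v ∈ Vp, A v ∈ Vp) →
      (∀ v C, GB S v C → GB S (A v) (K * C)) → ∃ T : X →L[ℂ] X, ∀ x, co (T x) = A (co x) := by
    intro A K hA hV hK
    let U : Submodule ℂ X := Vp.comap (co : X →ₗ[ℂ] Fn)
    choose F hF using fun u : U => hsur _ (hV _ u.2)
    let F' : U →ₗ[ℂ] X :=
      { toFun := F
        map_add' := fun a b => cinj _ _ (by simp [hF])
        map_smul' := fun c a => cinj _ _ (by simp [hF]) }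
    have hd : DenseRange U.subtype := hden.mono fun x hx => ⟨⟨x, hx⟩, rfl⟩
    refine ⟨F'.extendOfNorm U.subtype, fun x => hd.induction_on x
      (isClosed_eq (by fun_prop) (hA.comp co.continuous)) fun u => ?_⟩
    rw [LinearMap.extendOfNorm_eq hd ⟨K, fun u => (hn _ _).2 (by
      have := hK _ _ (gb u)
      simp only [F', LinearMap.coe_mk, AddHom.coe_mk, hF]; exact this)⟩]
    exact hF u
  obtain ⟨K2, -, hK2⟩ := sh_all hl one_lt_two
  have exs : ∀ m : ℤ, ∃ T : X →L[ℂ] X, ∀ x, co (T x) = sh m (co x) := fun m =>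
    ext { toFun := sh m
          map_add' := fun v w => by ext n; simp only [sh, Pi.add_apply]; split_ifs <;> simp
          map_smul' := fun c w => by ext n; simp only [sh, Pi.smul_apply]; split_ifs <;> simp }
      _ (continuous_pi fun n => by
        simp only [LinearMap.coe_mk, AddHom.coe_mk, sh]; split_ifs <;> fun_prop)
      (by
        rintro v ⟨h1, D, h2⟩
        exact ⟨fun n hn => by simp [sh, not_le.2 hn], D + m.natAbs, fun n hn => by
          simp [sh, h2 (n - m) (by omega)]⟩) (hK2 m)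
  choose Sh hSh using exs
  have shn : ∀ m x (n : ℕ), co (Sh m x) n = co x (n - m) := fun m x n => by simp [hSh, sh]
  obtain ⟨x1, hx1⟩ := hsur (Pi.single 0 1) ⟨fun n hn => Pi.single_eq_of_ne (by omega) _, 1,
    fun n hn => Pi.single_eq_of_ne (by omega) _⟩
  have main : ∀ F : ∀ s, ℤ →₀ ℂ, (∀ s, F s = (S s).f ∨ F s = (S s).g) →
      Summable (fun s => FF (S s).N (F s)) ∧ InST ι (∑' s, FF (S s).N (F s) : CT) := by
    intro F hF
    have s1 : Summable fun s => FF (S s).N (F s) :=
      .of_norm_bounded summable_geometric_two fun s => (FF_norm _ _).trans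
        (((S s).hc _ (hF s)).trans ((S s).e5.trans (hS1 s).1.le))
    let T : ℕ → X →L[ℂ] X := fun s => ∑ k ∈ (F s).support, F s k • Sh ((S s).N * k)
    have hT : ∀ s x, co (T s x) = Tt (S s).N (F s) (co x) := fun s x => by
      ext n; simp [T, Tt, pr_eq, hSh]
    have s2 : Summable T := .of_norm_bounded (summable_geometric_two.mul_left 2) fun s =>
      ContinuousLinearMap.opNorm_le_bound _ (by positivity) fun x => by
        rw [hn, hT, ← (hS1 s).1]; exact (gb x).Tt hS (hneg x) s (hF s)
    refine ⟨s1, ∑' s, T s, fun x p hx z hz => ?_⟩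
    let pC : CT := ∑ j ∈ range (p.natDegree + 1), p.coeff j • fourier j
    have f1 : ∀ (k : ℕ) (θ : AddCircle (1:ℝ)), (fourier (k:ℤ) θ : ℂ) = fourier 1 θ ^ k := fun k θ => by
      induction k with
      | zero => simp
      | succ k ih => rw [pow_succ, ← ih, ← fourier_add]; rfl
    have e1 : ∀ f : CT, (fun θ => f θ * p.eval (fourier 1 θ)) = ⇑(f * pC) := fun f => by
      ext θ
      simp only [pC, ContinuousMap.mul_apply, ContinuousMap.coe_sum, Finset.sum_apply,
        ContinuousMap.smul_apply, f1, smul_eq_mul, Polynomial.eval_eq_sum_range]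
    have e2 : ∀ m, kap m pC = co x m := fun m => by
      simp only [pC, map_sum, map_smul, kap_fourier, smul_eq_mul]
      by_cases hm : m < 0
      · rw [hneg x m hm]; exact sum_eq_zero fun j _ => by rw [if_neg (by omega), mul_zero]
      lift m to ℕ using not_lt.1 hm
      rw [(isp x p).1 hx, sum_eq_single m]; · simp
      · intro j _ hj; rw [if_neg (by omega), mul_zero]
      · intro h; rw [Polynomial.coeff_eq_zero_of_natDegree_lt (by simpa using h), zero_mul]
    convert hs _ z hz using 3 with n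
    rw [e1, ← kap_apply]
    have t1 := (kap n).hasSum (s1.hasSum.mul_right pC)
    have t2 := (((ContinuousLinearMap.proj (n:ℤ)).comp co).comp
      (ContinuousLinearMap.apply ℂ X x)).hasSum s2.hasSum
    refine t1.unique ?_
    convert t2 using 2 with s
    · simp [kap_FF_mul, hT, Tt, sh, e2]
    · simp
  obtain ⟨sf, hf⟩ := main (fun s => (S s).f) fun _ => Or.inl rfl
  obtain ⟨sg, hg⟩ := main (fun s => (S s).g) fun _ => Or.inr rfl
  refine ⟨X, inferInstance, inferInstance, inferInstance, ι, ⟨fun x hx => ?_, fun x => ?_,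
    fun z hz => ?_, fun x t => ?_, fun p => ?_, hden.mono ?_, Sh 1, Sh (-1), fun x z hz => ?_, ?_⟩,
    _, _, hf, hg, ?_⟩
  · exact cext x 0 fun n => by
      simpa using det x 0 (fun z hz => by simpa [hx z hz] using hasSum_zero) n
  · refine (differentiableOn_tsum_of_summable_norm (sm x) (fun n => ?_) isOpen_ball
      fun n z hz => bd x z hz n).congr fun z hz => (hs x z hz).tsum_eq.symm
    fun_prop
  · refine (((LinearMap.proj z).comp ι).mkContinuous 1 fun x => ?_).continuous
    rw [one_mul]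
    exact ((hs x z hz).norm_le_of_bounded (sm x).hasSum (bd x z hz)).trans
      ((sm x).tsum_le_of_sum_le (ps x))
  · have hy : ‖exp (t * I)‖ = 1 := norm_exp_ofReal_mul_I t
    obtain ⟨T, hT⟩ := ext
      { toFun := fun v n => v n * exp (t * I) ^ n
        map_add' := fun v w => by ext n; simp [add_mul]
        map_smul' := fun c w => by ext n; simp [mul_assoc] } 1
      (continuous_pi fun n => by simp only [LinearMap.coe_mk, AddHom.coe_mk]; fun_prop)
      (by
        rintro v ⟨h1, D, h2⟩
        exact ⟨fun n hn => by simp [h1 n hn], D, fun n hn => by simp [h2 n hn]⟩)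
      fun v C h => by simpa using h.rot hy
    refine ⟨T x, fun z hz => (hs _ z hz).unique ?_⟩
    have := hs x (exp (t * I) * z) (by simpa [hy] using hz)
    simpa [hT, mul_pow, mul_assoc] using this
  · obtain ⟨x, hx⟩ := hsur (fun n => if 0 ≤ n then p.coeff n.toNat else 0)
      ⟨fun n hn => by simp [not_le.2 hn], p.natDegree + 1, fun n hn => by
        simp [Polynomial.coeff_eq_zero_of_natDegree_lt (show p.natDegree < n.toNat by omega)]⟩
    exact ⟨x, (isp x p).2 fun n => by simp [hx]⟩
  · rintro x ⟨-, D, hD⟩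
    refine ⟨∑ j ∈ range D, Polynomial.monomial j (co x j), (isp x _).2 fun n => ?_⟩
    simp only [Polynomial.finsetSum_coeff, Polynomial.coeff_monomial, sum_ite_eq', mem_range]
    split_ifs with h
    · rfl
    · exact hD n (by omega)
  · constructor
    · refine (hs _ z hz).unique ?_
      rw [← hasSum_nat_add_iff' 1]
      have := (hs x z hz).mul_left z
      simp only [shn]
      simpa [hneg, pow_succ', mul_left_comm] using this
    · have h0 : ι x 0 = co x 0 := (hs x 0 (by simp)).unique (by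
        simpa using hasSum_single (f := fun n : ℕ => co x n * (0:ℂ) ^ n) 0 fun n hn => by simp [hn])
      refine ((hs _ z hz).mul_left z).unique ?_
      have := (hasSum_nat_add_iff' 1).2 (hs x z hz)
      simpa [shn, h0, pow_succ', mul_left_comm] using this
  · have p1 : ∀ k : ℕ, Sh 1 ^ k = Sh k := fun k => by
      induction k with
      | zero => ext x; exact cext _ _ fun n => by simp [shn]
      | succ k ih =>
        ext x; refine cext _ _ fun n => ?_
        rw [pow_succ, ih, mul_apply_eq_comp, shn, shn, hSh, sh]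
        split_ifs with h
        · exact congrArg _ (by omega)
        · rw [hneg]; omega
    have p2 : ∀ k : ℕ, Sh (-1) ^ k = Sh (-k) := fun k => by
      induction k with
      | zero => ext x; exact cext _ _ fun n => by simp [shn]
      | succ k ih =>
        ext x; refine cext _ _ fun n => ?_
        rw [pow_succ, ih, mul_apply_eq_comp, shn, shn, hSh, sh, if_pos (by omega)]
        exact congrArg _ (by omega)
    refine radius_one _ _ ?_ x1 ?_ ?_ fun ρ hρ => ?_
    · ext x; refine cext _ _ fun n => ?_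
      rw [mul_apply_eq_comp, shn, hSh, sh, if_pos (by omega)]; simp
    · rintro rfl
      simpa using congrFun hx1 0
    · exact cext _ _ fun n => by rw [shn, hx1, Pi.single_eq_of_ne (by omega)]; simp
    · obtain ⟨K, hK1, hK⟩ := sh_all hl hρ
      have : ∀ m : ℤ, ‖Sh m‖ ≤ K * ρ ^ m.natAbs := fun m =>
        ContinuousLinearMap.opNorm_le_bound _ (by positivity) fun x => by
          rw [hn, hSh]; exact hK m _ _ (gb x)
      exact ⟨K, fun k => ⟨by simpa [p1] using this k, by simpa [p2] using this (-k)⟩⟩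
  · rintro ⟨T, hT⟩
    have h1 := det (T x1) _ (hT x1 1 ((isp _ _).2 fun n => by
      rw [hx1, Polynomial.coeff_one, Pi.single_apply]; simp))
    have key : ∀ s, 1 / (4 * (S s).η) - 4 ≤ ‖T x1‖ := fun s => by
      have h2 := ((gb (T x1)).2 s 0).2.2
      simp only [smp, add_zero, Int.natAbs_zero, pow_zero, one_mul] at h2
      refine le_trans ?_ h2
      have lim := sf.hasSum.tendsto_sum_nat.mul sg.hasSum.tendsto_sum_nat
      have cont : Continuous fun h : CT => (S s).a2 * ∑ n ∈ (S s).P, ‖kap ((S s).N * n) h‖ := by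
        fun_prop
      refine (ge_of_tendsto ((cont.tendsto _).comp lim) ((eventually_gt_atTop s).mono fun M hM =>
        lower hS (fun s => (hS1 s).1) s M hM)).trans (le_of_eq ?_)
      congr 1
      refine sum_congr rfl fun n hn => ?_
      have := (S s).hP n hn
      obtain ⟨m, hm⟩ := Int.eq_ofNat_of_zero_le (show 0 ≤ (S s).N * n by positivity)
      rw [hm, h1, kap_apply]; simp; rfl
    obtain ⟨s, hs⟩ := pow_unbounded_of_one_lt (4 * (‖T x1‖ + 4)) (one_lt_two (α := ℝ))
    have := key s
    rw [(hS1 s).1, one_div_pow, mul_one_div, one_div_div] at this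
    linarith

end Pool.Agent.Results.MP_3f635c_an.NotAlgebra
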